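import Pool.Agent.R291.ScaleLamp

/-!
For every finite non-abelian group `A` the lamplighter group `A ≀ ℤ` has a scaling entropy growth
gap.
-/

namespace Pool.Agent.Results.MP_a6e297_an.NonabelianLamps

open Pool.Agent.R291.Scale

theorem result (A : Type) [Group A] [Finite A] (hA : ∃ a b : A, a * b ≠ b * a) :
    GrowthGap (Lamp A) :=
  Lamp.growthGap hA

end Pool.Agent.Results.MP_a6e297_an.NonabelianLamps
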